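import Pool.Agent.H7.GV.Stmts

/-!
# Board gv9, row NUB9 (after the row NUB of board gu8 by helper17)
-/

set_option autoImplicit false

namespace Pool.GV7

open Pool.Agent.H23.KT Pool.Agent.H46.KW Pool.KQ Pool.GT7 Pool.GU7

theorem NUB9_geo {A y : ℝ} (h0 : 0 ≤ A) (h1 : 2 * A / 3 ≤ y) (h2 : y ≤ A) :
    ∀ j : ℕ, (A - y) * j * (2 * A / 3) ^ j ≤ y * (A ^ j - y ^ j) := by
  intro j
  induction j with
  | zero => simp
  | succ j ih =>
    have hA2 : 0 ≤ 2 * A / 3 := by linarith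
    have hy : 0 ≤ y := by linarith
    have hd : 0 ≤ A - y := by linarith
    have e : y * (A ^ (j + 1) - y ^ (j + 1)) = y * A ^ j * (A - y) + y * (y * (A ^ j - y ^ j)) := by
      ring
    have p1 : (2 * A / 3) ^ j ≤ A ^ j := pow_le_pow_left₀ hA2 (by linarith) j
    have p2 : (2 * A / 3) * (2 * A / 3) ^ j ≤ y * A ^ j :=
      mul_le_mul h1 p1 (pow_nonneg hA2 j) hy
    have p3 : (2 * A / 3) * (2 * A / 3) ^ j * (A - y) ≤ y * A ^ j * (A - y) :=
      mul_le_mul_of_nonneg_right p2 hd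
    have p4 : 0 ≤ (A - y) * j * (2 * A / 3) ^ j :=
      mul_nonneg (mul_nonneg hd (Nat.cast_nonneg j)) (pow_nonneg hA2 j)
    have p5 : (2 * A / 3) * ((A - y) * j * (2 * A / 3) ^ j) ≤ y * (y * (A ^ j - y ^ j)) :=
      mul_le_mul h1 ih p4 hy
    rw [e]
    push_cast
    have e2 : (A - y) * ((j : ℝ) + 1) * (2 * A / 3) ^ (j + 1)
        = (2 * A / 3) * (2 * A / 3) ^ j * (A - y) + (2 * A / 3) * ((A - y) * j * (2 * A / 3) ^ j) := by
      ring
    rw [e2]
    linarith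

theorem NUB9_bern {a s : ℝ} (ha : 0 ≤ a) (hs : 0 ≤ s) :
    ∀ j : ℕ, (a + s) ^ j ≤ a ^ j + j * s * (a + s) ^ (j - 1) := by
  intro j
  induction j with
  | zero => simp
  | succ j ih =>
    rcases Nat.eq_zero_or_pos j with h | h
    · subst h; simp
    · obtain ⟨k, rfl⟩ : ∃ k, j = k + 1 := ⟨j - 1, by omega⟩
      simp only [Nat.add_sub_cancel] at ih ⊢
      have h1 : (a + s) * (a + s) ^ (k + 1) ≤
          (a + s) * (a ^ (k + 1) + ((k + 1 : ℕ) : ℝ) * s * (a + s) ^ k) :=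
        mul_le_mul_of_nonneg_left ih (by positivity)
      have h2 : s * a ^ (k + 1) ≤ s * (a + s) ^ (k + 1) :=
        mul_le_mul_of_nonneg_left (pow_le_pow_left₀ ha (by linarith) _) hs
      have e1 : (a + s) ^ (k + 1 + 1) = (a + s) * (a + s) ^ (k + 1) := by ring
      rw [e1]
      refine h1.trans ?_
      push_cast
      have e2 : (a + s) * (a ^ (k + 1) + ((k : ℝ) + 1) * s * (a + s) ^ k)
          = a ^ (k + 1 + 1) + s * a ^ (k + 1) + ((k : ℝ) + 1) * s * (a + s) ^ (k + 1) := by ring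
      rw [e2]
      linarith

theorem NUB9_pow {u v a : ℝ} (hu : 0 ≤ u) (hv : 0 ≤ v) (hua : u ≤ a) (hva : v ≤ a)
    (h : u ^ 2 + v ^ 2 ≤ a ^ 2) : ∀ k : ℕ, u ^ (k + 2) + v ^ (k + 2) ≤ a ^ (k + 2) := by
  intro k
  have ha : 0 ≤ a := hu.trans hua
  have h1 : u ^ k * u ^ 2 ≤ a ^ k * u ^ 2 :=
    mul_le_mul_of_nonneg_right (pow_le_pow_left₀ hu hua k) (by positivity)
  have h2 : v ^ k * v ^ 2 ≤ a ^ k * v ^ 2 :=
    mul_le_mul_of_nonneg_right (pow_le_pow_left₀ hv hva k) (by positivity)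
  have h3 : a ^ k * (u ^ 2 + v ^ 2) ≤ a ^ k * a ^ 2 :=
    mul_le_mul_of_nonneg_left h (by positivity)
  rw [pow_add, pow_add, pow_add]
  linarith

theorem NUB9_thm : NUB9Stmt := by
  intro p w r hw
  refine ⟨((w : ℝ) + 1) * r * (1 + r) ^ (w + 1) + 1, by positivity, 10 * r + 1, ?_⟩
  intro a ha n hn
  have ha1 : 1 ≤ a := by omega
  have haR : (1 : ℝ) ≤ a := by exact_mod_cast ha1
  have haR' : 10 * (r : ℝ) + 1 ≤ a := by exact_mod_cast ha
  obtain ⟨b, hb⟩ : ∃ b : ℝ, b = (p : ℝ) + 3 := ⟨_, rfl⟩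
  have hb0 : 0 < b := by rw [hb]; positivity
  have hb3 : 3 ≤ b := by rw [hb]; linarith [Nat.cast_nonneg (α := ℝ) p]
  have hD : ((((p + 3) * a + r : ℕ) : ℝ)) = b * a + r := by push_cast; rw [hb]
  have hnR : (n : ℝ) ≤ b * a + r := by rw [← hD]; exact_mod_cast hn
  rw [hD, ← hb]
  obtain ⟨s, hs⟩ : ∃ s : ℝ, s = r / b := ⟨_, rfl⟩
  have hr0 : (0 : ℝ) ≤ r := Nat.cast_nonneg r
  have hs0 : 0 ≤ s := by rw [hs]; positivity
  have hbs : b * s = r := by rw [hs]; field_simp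
  have hsr : s ≤ r := by rw [hs]; exact div_le_self hr0 (by linarith)
  obtain ⟨y, hy⟩ : ∃ y : ℝ, y = (b * a + r - n) / b := ⟨_, rfl⟩
  have hby : b * y = b * a + r - n := by rw [hy]; field_simp
  rw [← hy]
  have hy0 : 0 ≤ y := by rw [hy]; exact div_nonneg (by linarith) hb0.le
  constructor
  · intro h2n
    have h2nR : 3 * (n : ℝ) ≤ b * a + r := by rw [← hD]; exact_mod_cast h2n
    have hn0 : (0 : ℝ) ≤ n := Nat.cast_nonneg n
    have g1 : 2 * (a + s) / 3 ≤ y := by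
      have : b * (2 * (a + s) / 3) ≤ b * y := by rw [hby]; nlinarith
      exact le_of_mul_le_mul_left this hb0
    have g2 : y ≤ a + s := by
      have : b * y ≤ b * (a + s) := by rw [hby]; nlinarith
      exact le_of_mul_le_mul_left this hb0
    have hgeo := NUB9_geo (A := a + s) (y := y) (by positivity) g1 g2 (w + 1)
    have hgeo2 := mul_le_mul_of_nonneg_left hgeo hb0.le
    have e1 : b * ((a + s - y) * ((w + 1 : ℕ) : ℝ) * (2 * (a + s) / 3) ^ (w + 1))
        = n * ((w : ℝ) + 1) * (2 * (a + s) / 3) ^ (w + 1) := by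
      have : b * (a + s - y) = n := by
        rw [mul_sub, hby, mul_add, hbs]; ring
      rw [← this]; push_cast; ring
    have e2 : b * (y * ((a + s) ^ (w + 1) - y ^ (w + 1)))
        = (b * a + r - n) * ((a + s) ^ (w + 1) - y ^ (w + 1)) := by rw [← hby]; ring
    rw [e1, e2] at hgeo2
    have q1 : (n : ℝ) * ((w : ℝ) + 1) * (2 * (a : ℝ) / 3) ^ (w + 1)
        ≤ n * ((w : ℝ) + 1) * (2 * (a + s) / 3) ^ (w + 1) := by
      apply mul_le_mul_of_nonneg_left _ (by positivity)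
      exact pow_le_pow_left₀ (by positivity) (by linarith) _
    have hbern := NUB9_bern (a := (a : ℝ)) (s := s) (by positivity) hs0 (w + 1)
    simp only [Nat.add_sub_cancel] at hbern
    push_cast at hbern
    have x0 : 0 ≤ b * a + r - n := by linarith
    have xle : b * a + r - n ≤ b * (a + s) := by rw [mul_add, hbs]; linarith
    have q2 : (b * a + r - n) * ((a + s) ^ (w + 1) - a ^ (w + 1))
        ≤ b * (a + s) * (((w : ℝ) + 1) * s * (a + s) ^ w) := by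
      apply mul_le_mul xle (by linarith) _ (by positivity)
      have := pow_le_pow_left₀ (show (0 : ℝ) ≤ a by positivity)
        (show (a : ℝ) ≤ a + s by linarith) (w + 1)
      linarith
    have q3 : b * (a + s) * (((w : ℝ) + 1) * s * (a + s) ^ w)
        = ((w : ℝ) + 1) * r * (a + s) ^ (w + 1) := by rw [← hbs]; ring
    have q4 : (a + s) ^ (w + 1) ≤ ((1 + (r : ℝ)) * a) ^ (w + 1) := by
      apply pow_le_pow_left₀ (by positivity)
      nlinarith
    rw [mul_pow] at q4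
    have q5 : ((w : ℝ) + 1) * r * (a + s) ^ (w + 1)
        ≤ ((w : ℝ) + 1) * r * ((1 + (r : ℝ)) ^ (w + 1) * (a : ℝ) ^ (w + 1)) :=
      mul_le_mul_of_nonneg_left q4 (by positivity)
    have q6 : 0 ≤ (a : ℝ) ^ (w + 1) := by positivity
    have e3 : (b * a + r - n) * ((a + s) ^ (w + 1) - y ^ (w + 1))
        = (b * a + r - n) * ((a : ℝ) ^ (w + 1) - y ^ (w + 1))
          + (b * a + r - n) * ((a + s) ^ (w + 1) - a ^ (w + 1)) := by ring
    rw [e3] at hgeo2
    rw [q3] at q2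
    have e4 : (((w : ℝ) + 1) * r * (1 + r) ^ (w + 1) + 1) * (a : ℝ) ^ (w + 1)
        = ((w : ℝ) + 1) * r * ((1 + (r : ℝ)) ^ (w + 1) * (a : ℝ) ^ (w + 1)) + (a : ℝ) ^ (w + 1) := by
      ring
    rw [e4]
    linarith
  · intro h2n
    have h2nR : b * a + r ≤ 3 * (n : ℝ) := by rw [← hD]; exact_mod_cast h2n
    obtain ⟨q, hq⟩ : ∃ q : ℝ, q = 1 / (12 * ((p : ℝ) + 2)) := ⟨_, rfl⟩
    have hq0 : 0 ≤ q := by rw [hq]; positivity
    have hq1 : q ≤ 1 / 24 := by
      rw [hq]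
      apply one_div_le_one_div_of_le (by norm_num)
      linarith [Nat.cast_nonneg (α := ℝ) p]
    rw [← hq]
    have k1 : y ≤ 2 * (a + s) / 3 := by
      have : b * y ≤ b * (2 * (a + s) / 3) := by rw [hby]; nlinarith
      exact le_of_mul_le_mul_left this hb0
    have hs10 : 10 * s ≤ a := by linarith
    have k2 : y ≤ 11 / 15 * a := by linarith
    have hu0 : 0 ≤ (2 / 3 - q) * (a : ℝ) := mul_nonneg (by linarith) (by linarith)
    have hu1 : (2 / 3 - q) * (a : ℝ) ≤ 2 / 3 * a :=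
      mul_le_mul_of_nonneg_right (by linarith) (by linarith)
    obtain ⟨k, rfl⟩ : ∃ k, w = k + 1 := ⟨w - 1, by omega⟩
    have h6 := NUB9_pow hu0 hy0 (by linarith : (2 / 3 - q) * (a : ℝ) ≤ a) (by linarith) (by
      have j1 : ((2 / 3 - q) * (a : ℝ)) ^ 2 ≤ (2 / 3 * a) ^ 2 := pow_le_pow_left₀ hu0 hu1 2
      have j2 : y ^ 2 ≤ (11 / 15 * (a : ℝ)) ^ 2 := pow_le_pow_left₀ hy0 k2 2
      have j3 : 0 ≤ (a : ℝ) ^ 2 := by positivity
      nlinarith) k
    have e5 : k + 1 + 1 = k + 2 := rfl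
    rw [e5]
    linarith

end Pool.GV7
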